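import Pool.Agent.Q94.LM.Fin

/-!
# The modulus condition and weak-`L_p` convergence of Walsh logarithmic means

For every `0 < p ≤ 1` the answer to Q1 is no: a martingale `f ∈ H_p` with
`ω_{H_p}(1/2^n, f) = O(log n / (2^{n(1/p-1)} log^{2[p]} n))` satisfies `‖L_k f - f‖_{weak-L_p} → 0`.

* `p < 1`: `ω_{H_p}(1/2^n, f) = o(n / 2^{n(1/p-1)})` gives even `‖L_k f - f‖_p → 0`, and here `o`
  cannot be replaced by `O`, not even for the weak norm;
* `p = 1`: no modulus condition is needed.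
-/

open MeasureTheory Filter Q94.LMC
open Q94.WF (G μ ℱ)
open scoped ENNReal Topology

theorem Pool.Agent.Results.MP_332aa0_an.WeakConvergence.result (p : ℝ) (hp0 : 0 < p) (hp1 : p ≤ 1) :
    -- the answer to Q1: there is no such martingale
    (¬ ∃ f : ℕ → G → ℂ, Martingale f ℱ μ ∧ Hnorm p f < ⊤ ∧
      (∃ C : ℝ, ∀ n : ℕ, 2 ≤ n → Hnorm p (tail f n) ≤ ENNReal.ofReal
        (C * (Real.log n / (2 ^ (n * (1 / p - 1)) * Real.log n ^ (2 * ⌊p⌋₊))))) ∧
      ¬ Tendsto (fun k => Wnorm p (fun x => L f k x - lim f x)) atTop (𝓝 0)) ∧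
    -- convergence under the sharp condition, `p < 1`
    (p < 1 → ∀ f : ℕ → G → ℂ, Martingale f ℱ μ → Hnorm p f < ⊤ →
      Tendsto (fun n : ℕ => Hnorm p (tail f n) * ENNReal.ofReal (2 ^ (n * (1 / p - 1)) / n))
        atTop (𝓝 0) →
      (∀ᵐ x ∂μ, Tendsto (fun n => f n x) atTop (𝓝 (lim f x))) ∧
      Tendsto (fun k => Lnorm p (fun x => L f k x - lim f x)) atTop (𝓝 0) ∧
      Tendsto (fun k => Wnorm p (fun x => L f k x - lim f x)) atTop (𝓝 0)) ∧
    -- convergence without condition, `p = 1`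
    (p = 1 → ∀ f : ℕ → G → ℂ, Martingale f ℱ μ → Hnorm p f < ⊤ →
      (∀ᵐ x ∂μ, Tendsto (fun n => f n x) atTop (𝓝 (lim f x))) ∧
      Tendsto (fun k => Wnorm p (fun x => L f k x - lim f x)) atTop (𝓝 0)) ∧
    -- sharpness, `p < 1`
    (p < 1 → ∃ f : ℕ → G → ℂ, Martingale f ℱ μ ∧ Hnorm p f < ⊤ ∧
      (∃ c : ℝ, ∀ n : ℕ, 1 ≤ n →
        Hnorm p (tail f n) ≤ ENNReal.ofReal (c * n / 2 ^ (n * (1 / p - 1)))) ∧
      (∀ᵐ x ∂μ, Tendsto (fun n => f n x) atTop (𝓝 (lim f x))) ∧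
      ¬ Tendsto (fun k => Wnorm p (fun x => L f k x - lim f x)) atTop (𝓝 0)) := by
  refine ⟨?_, fun hlt f hf h ht => case_lt hp0 hlt hf h ht, ?_, fun hlt => example_lt hp0 hlt⟩
  · rintro ⟨f, hf, h, ⟨C, hC⟩, hno⟩
    rcases lt_or_eq_of_le hp1 with hlt | heq
    · exact hno (case_lt hp0 hlt hf h (printed hp0 hlt hC)).2.2
    · subst heq
      exact hno (case_one hf h).2
  · intro heq f hf h
    subst heq
    exact case_one hf h
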